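import Mathlib

open MeasureTheory ProbabilityTheory Filter Topology

namespace Pool.Agent.Results.MP_0bd8e3_pr.NearMinimum

/-- The nearest-neighbour graph of the lattice of integer points of dimension `d`. -/
def lattice (d : ℕ) : SimpleGraph (Fin d → ℤ) where
  Adj x y := ∑ i, |x i - y i| = 1
  symm := ⟨by
    intro x y h
    simpa [abs_sub_comm] using h⟩
  loopless := ⟨by
    intro x h
    simp at h⟩

/-- The passage time of a lattice path: the sum of the passage times of its edges. -/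
def pathTime {d : ℕ} (t : Sym2 (Fin d → ℤ) → ℝ) {x y : Fin d → ℤ}
    (r : (lattice d).Walk x y) : ℝ :=
  (r.edges.map t).sum

/-- The passage time between two vertices: the infimum over lattice paths. -/
noncomputable def passage {d : ℕ} (t : Sym2 (Fin d → ℤ) → ℝ) (x y : Fin d → ℤ) : ℝ :=
  ⨅ r : (lattice d).Walk x y, pathTime t r

/-- First-passage percolation: the passage times of the edges are i.i.d. with law `F`. -/
structure IsFPP {Ω : Type*} [MeasurableSpace Ω] (P : Measure Ω) (d : ℕ) (F : Measure ℝ)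
    (τ : Sym2 (Fin d → ℤ) → Ω → ℝ) : Prop where
  meas : ∀ e ∈ (lattice d).edgeSet, Measurable (τ e)
  indep : iIndepFun (fun e : (lattice d).edgeSet => τ e.1) P
  law : ∀ e ∈ (lattice d).edgeSet, P.map (τ e) = F

/-- The integer vector `x` as a point of Euclidean space. -/
noncomputable def toE {d : ℕ} (x : Fin d → ℤ) : EuclideanSpace ℝ (Fin d) :=
  WithLp.toLp 2 (fun i => (x i : ℝ))

/-- `μ` is the time constant: `T(0, n x) / n` tends to `μ x` in probability, for every
integer vector `x`. -/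
def IsTimeConstant {Ω : Type*} [MeasurableSpace Ω] (P : Measure Ω) {d : ℕ}
    (τ : Sym2 (Fin d → ℤ) → Ω → ℝ) (μ : Seminorm ℝ (EuclideanSpace ℝ (Fin d))) : Prop :=
  ∀ x : Fin d → ℤ, TendstoInMeasure P
    (fun (n : ℕ) ω => passage (fun e => τ e ω) 0 (n • x) / n) atTop (fun _ => μ (toE x))

/-- Every boundary point of `W` lies on the boundary sphere of a closed ball of radius `R`
that contains `W`. -/
def UniformlyCurved {d : ℕ} (R : ℝ) (W : Set (EuclideanSpace ℝ (Fin d))) : Prop :=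
  ∀ z ∈ frontier W, ∃ c, W ⊆ Metric.closedBall c R ∧ z ∈ Metric.sphere c R

variable {d : ℕ}

lemma adj_single (x : Fin d → ℤ) (i : Fin d) (k : ℤ) :
    (lattice d).Adj (x + Pi.single i k) (x + Pi.single i (k + 1)) := by
  change ∑ j, |(x + Pi.single i k : Fin d → ℤ) j - (x + Pi.single i (k + 1) : Fin d → ℤ) j| = 1
  rw [Finset.sum_eq_single i]
  · simp
  · intro j _ hj
    simp [Pi.single_eq_of_ne hj]
  · simp

lemma reach_single (x : Fin d → ℤ) (i : Fin d) (k : ℤ) :
    (lattice d).Reachable x (x + Pi.single i k) := by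
  induction k using Int.induction_on with
  | zero => simp
  | succ k ih => exact ih.trans (adj_single x i k).reachable
  | pred k ih =>
      have h := (adj_single x i (-(k : ℤ) - 1)).symm.reachable
      rw [show (-(k : ℤ) - 1 + 1) = -(k : ℤ) by ring] at h
      exact ih.trans h

lemma reach (x y : Fin d → ℤ) : (lattice d).Reachable x y := by
  have h : ∀ s : Finset (Fin d), (lattice d).Reachable x
      (x + ∑ i ∈ s, Pi.single i ((y - x) i)) := by
    intro s
    induction s using Finset.induction_on with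
    | empty => simp
    | insert i s hi ih =>
        rw [Finset.sum_insert hi, add_comm (Pi.single i _), ← add_assoc]
        exact ih.trans (reach_single _ i _)
  have h2 := h Finset.univ
  rw [Finset.univ_sum_single] at h2
  simpa using h2

lemma dist_le_length {x y : Fin d → ℤ} (r : (lattice d).Walk x y) :
    ∑ i, |x i - y i| ≤ (r.length : ℤ) := by
  induction r with
  | nil => simp
  | @cons u v w h p ih =>
      have h1 : ∑ i, |u i - v i| = 1 := h
      have h2 : ∑ i, |u i - w i| ≤ ∑ i, |u i - v i| + ∑ i, |v i - w i| := by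
        rw [← Finset.sum_add_distrib]
        exact Finset.sum_le_sum (fun i _ => abs_sub_le _ _ _)
      rw [SimpleGraph.Walk.length_cons]
      push_cast
      linarith

lemma length_le_time {t : Sym2 (Fin d → ℤ) → ℝ} {a : ℝ}
    (ht : ∀ e ∈ (lattice d).edgeSet, a ≤ t e) {x y : Fin d → ℤ}
    (r : (lattice d).Walk x y) : a * r.length ≤ pathTime t r := by
  induction r with
  | nil => simp [pathTime]
  | @cons u v w h p ih =>
      have h1 : a ≤ t s(u, v) := ht _ h
      unfold pathTime at ih ⊢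
      rw [SimpleGraph.Walk.length_cons, SimpleGraph.Walk.edges_cons, List.map_cons,
        List.sum_cons]
      push_cast
      linarith

lemma passage_lower {t : Sym2 (Fin d → ℤ) → ℝ} {a : ℝ} (ha : 0 ≤ a)
    (ht : ∀ e ∈ (lattice d).edgeSet, a ≤ t e) (x y : Fin d → ℤ) :
    a * ((∑ i, |x i - y i| : ℤ) : ℝ) ≤ passage t x y := by
  have : Nonempty ((lattice d).Walk x y) := reach x y
  apply le_ciInf
  intro r
  refine le_trans ?_ (length_le_time ht r)
  apply mul_le_mul_of_nonneg_left _ ha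
  exact_mod_cast dist_le_length r

/-- The edges of the straight path in direction `i`. -/
def straight (i : Fin d) (k : ℕ) : Sym2 (Fin d → ℤ) :=
  s(k • Pi.single i (1 : ℤ), (k + 1) • Pi.single i (1 : ℤ))

lemma straight_adj (i : Fin d) (k : ℕ) :
    (lattice d).Adj (k • Pi.single i (1 : ℤ)) ((k + 1) • Pi.single i (1 : ℤ)) := by
  have h := adj_single 0 i (k : ℤ)
  have e1 : ∀ m : ℕ, (m • Pi.single i (1 : ℤ) : Fin d → ℤ) = Pi.single i (m : ℤ) := by
    intro m
    ext j
    by_cases hj : j = i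
    · subst hj; simp
    · simp [Pi.single_eq_of_ne hj]
  rw [e1, e1]
  simpa using h

lemma straight_walk (t : Sym2 (Fin d → ℤ) → ℝ) (i : Fin d) (n : ℕ) :
    ∃ r : (lattice d).Walk 0 (n • Pi.single i (1 : ℤ)),
      pathTime t r = ∑ k ∈ Finset.range n, t (straight i k) := by
  induction n with
  | zero =>
      refine ⟨SimpleGraph.Walk.nil.copy rfl (by simp), ?_⟩
      simp [pathTime]
  | succ n ih =>
      obtain ⟨r, hr⟩ := ih
      refine ⟨r.concat (straight_adj i n), ?_⟩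
      unfold pathTime at hr ⊢
      rw [SimpleGraph.Walk.edges_concat, Finset.sum_range_succ, ← hr]
      simp [straight]

lemma passage_upper {t : Sym2 (Fin d → ℤ) → ℝ} {a : ℝ} (ha : 0 ≤ a)
    (ht : ∀ e ∈ (lattice d).edgeSet, a ≤ t e) (i : Fin d) (n : ℕ) :
    passage t 0 (n • Pi.single i (1 : ℤ)) ≤ ∑ k ∈ Finset.range n, t (straight i k) := by
  obtain ⟨r, hr⟩ := straight_walk t i n
  rw [← hr]
  apply ciInf_le
  refine ⟨0, ?_⟩
  rintro _ ⟨q, rfl⟩
  refine le_trans ?_ (length_le_time ht q)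
  positivity

variable {Ω : Type*} [MeasurableSpace Ω] {P : Measure Ω} {F : Measure ℝ}
  {τ : Sym2 (Fin d → ℤ) → Ω → ℝ} {a : ℝ}

lemma ae_lower (h : IsFPP P d F τ) (hF : ∀ᵐ t ∂F, a ≤ t) :
    ∀ᵐ ω ∂P, ∀ e ∈ (lattice d).edgeSet, a ≤ τ e ω := by
  have h0 : ∀ e : (lattice d).edgeSet, ∀ᵐ ω ∂P, a ≤ τ e.1 ω := by
    intro e
    have h2 : ∀ᵐ t ∂(P.map (τ e.1)), a ≤ t := by
      rw [h.law e.1 e.2]
      exact hF
    exact ae_of_ae_map (h.meas e.1 e.2).aemeasurable h2
  have : Countable (Sym2 (Fin d → ℤ)) := by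
    unfold Sym2
    infer_instance
  rw [← ae_all_iff] at h0
  filter_upwards [h0] with ω hω e he using hω ⟨e, he⟩

lemma tc_lower [IsProbabilityMeasure P] (ha : 0 < a) (h : IsFPP P d F τ)
    (hF : ∀ᵐ t ∂F, a ≤ t) {μ : Seminorm ℝ (EuclideanSpace ℝ (Fin d))}
    (hμ : IsTimeConstant P τ μ) (x : Fin d → ℤ) :
    a * ∑ i, |(x i : ℝ)| ≤ μ (toE x) := by
  obtain ⟨ns, hns, hlim⟩ := (hμ x).exists_seq_tendsto_ae
  obtain ⟨ω, h1, h2⟩ := (hlim.and (ae_lower h hF)).exists
  refine ge_of_tendsto h1 ?_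
  filter_upwards [hns.tendsto_atTop.eventually_ge_atTop 1] with k hk
  have h3 := passage_lower ha.le h2 0 (ns k • x)
  have hpos : (0 : ℝ) < (ns k : ℝ) := by exact_mod_cast hk
  rw [le_div_iff₀ hpos]
  refine le_trans (le_of_eq ?_) h3
  have h4 : (((∑ i, |(0 : Fin d → ℤ) i - (ns k • x) i| : ℤ)) : ℝ)
      = (ns k : ℝ) * ∑ i, |(x i : ℝ)| := by
    rw [Finset.mul_sum]
    push_cast
    refine Finset.sum_congr rfl (fun i _ => ?_)
    simp [abs_mul]
  rw [h4]
  ring

lemma tc_upper [IsProbabilityMeasure P] (ha : 0 < a) (h : IsFPP P d F τ)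
    (hF : ∀ᵐ t ∂F, a ≤ t) (hint : Integrable id F)
    {μ : Seminorm ℝ (EuclideanSpace ℝ (Fin d))}
    (hμ : IsTimeConstant P τ μ) (i : Fin d) :
    μ (toE (Pi.single i 1)) ≤ ∫ t, t ∂F := by
  have hedge : ∀ k, straight i k ∈ (lattice d).edgeSet := fun k => straight_adj i k
  have hinj : ∀ j k, j ≠ k → straight i j ≠ straight i k := by
    intro j k hjk he
    apply hjk
    unfold straight at he
    rw [Sym2.eq_iff] at he
    rcases he with ⟨h1, -⟩ | ⟨h1, h2⟩
    · have := congrFun h1 i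
      simpa using this
    · have e1 := congrFun h1 i
      have e2 := congrFun h2 i
      simp at e1 e2
      omega
  have hint0 : Integrable (τ (straight i 0)) P := by
    have h1 : Integrable id (P.map (τ (straight i 0))) := by
      rw [h.law _ (hedge 0)]
      exact hint
    exact (integrable_map_measure h1.1 (h.meas _ (hedge 0)).aemeasurable).1 h1
  have hind : Pairwise (Function.onFun (fun X Y : Ω → ℝ => IndepFun X Y P)
      (fun k ω => τ (straight i k) ω)) := by
    intro j k hjk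
    have h1 : (⟨straight i j, hedge j⟩ : (lattice d).edgeSet) ≠ ⟨straight i k, hedge k⟩ := by
      intro he
      exact hinj j k hjk (congrArg Subtype.val he)
    exact h.indep.indepFun h1
  have hid : ∀ k, IdentDistrib (fun ω => τ (straight i k) ω) (fun ω => τ (straight i 0) ω) P P := by
    intro k
    refine ⟨(h.meas _ (hedge k)).aemeasurable, (h.meas _ (hedge 0)).aemeasurable, ?_⟩
    exact (h.law _ (hedge k)).trans (h.law _ (hedge 0)).symm
  have hslln := strong_law_ae_real (fun k ω => τ (straight i k) ω) hint0 hind hid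
  have hmean : ∫ ω, τ (straight i 0) ω ∂P = ∫ t, t ∂F := by
    rw [← h.law _ (hedge 0)]
    exact (integral_map (h.meas _ (hedge 0)).aemeasurable measurable_id.aestronglyMeasurable).symm
  rw [← hmean]
  obtain ⟨ns, hns, hlim⟩ := (hμ (Pi.single i 1)).exists_seq_tendsto_ae
  obtain ⟨ω, ⟨h1, h2⟩, h3⟩ := ((hlim.and (ae_lower h hF)).and hslln).exists
  have h4 := h3.comp hns.tendsto_atTop
  refine le_of_tendsto_of_tendsto' h1 h4 ?_
  intro k
  exact div_le_div_of_nonneg_right (passage_upper ha.le h2 i (ns k)) (Nat.cast_nonneg _)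

lemma mu_lower {μ : Seminorm ℝ (EuclideanSpace ℝ (Fin d))} (ha : 0 < a)
    (hlow : ∀ x : Fin d → ℤ, a * ∑ i, |(x i : ℝ)| ≤ μ (toE x))
    (z : EuclideanSpace ℝ (Fin d)) : a * ∑ i, |z i| ≤ μ z := by
  by_contra hcon
  push Not at hcon
  set S := ∑ i, μ (EuclideanSpace.single i (1 : ℝ)) with hS
  obtain ⟨n, hn⟩ := exists_nat_gt ((a * d + S) / (a * ∑ i, |z i| - μ z))
  have hδ : 0 < a * ∑ i, |z i| - μ z := by linarith
  rw [div_lt_iff₀ hδ] at hn
  set v : Fin d → ℤ := fun i => ⌊(n : ℝ) * z i⌋ with hv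
  set r : EuclideanSpace ℝ (Fin d) := toE v - (n : ℝ) • z with hr
  have hri : ∀ i, |r i| ≤ 1 := by
    intro i
    have e : r i = (⌊(n : ℝ) * z i⌋ : ℝ) - (n : ℝ) * z i := by
      simp [hr, toE, hv]
    rw [e, abs_le]
    constructor
    · linarith [Int.sub_one_lt_floor ((n : ℝ) * z i)]
    · linarith [Int.floor_le ((n : ℝ) * z i)]
  have hrs : r = ∑ i, (r i) • EuclideanSpace.single i (1 : ℝ) := by
    ext j
    simp [Pi.single_apply]
  have hμr : μ r ≤ S := by
    rw [hrs]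
    refine le_trans (Finset.le_sum_of_subadditive μ (map_zero μ).le (map_add_le_add μ) _ _) ?_
    rw [hS]
    refine Finset.sum_le_sum (fun i _ => ?_)
    rw [map_smul_eq_mul, Real.norm_eq_abs]
    have := apply_nonneg μ (EuclideanSpace.single i (1 : ℝ))
    nlinarith [hri i]
  have h1 : μ (toE v) ≤ n * μ z + S := by
    have e : toE v = (n : ℝ) • z + r := by rw [hr]; abel
    rw [e]
    refine le_trans (map_add_le_add μ _ _) ?_
    rw [map_smul_eq_mul, Real.norm_eq_abs, Nat.abs_cast]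
    linarith
  have h2 : (n : ℝ) * ∑ i, |z i| - d ≤ ∑ i, |(v i : ℝ)| := by
    have h3 : ∀ i ∈ (Finset.univ : Finset (Fin d)), (n : ℝ) * |z i| - 1 ≤ |(v i : ℝ)| := by
      intro i _
      have e : (v i : ℝ) = (n : ℝ) * z i + r i := by
        simp [hr, toE]
      have h4 : (n : ℝ) * |z i| = |(n : ℝ) * z i| := by rw [abs_mul, Nat.abs_cast]
      rw [h4]
      have h5 : |(n : ℝ) * z i| ≤ |(v i : ℝ)| + |r i| := by
        have : (n : ℝ) * z i = (v i : ℝ) - r i := by rw [e]; ring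
        rw [this]
        exact abs_sub _ _
      linarith [hri i]
    have h6 := Finset.sum_le_sum h3
    rw [Finset.sum_sub_distrib, ← Finset.mul_sum] at h6
    simpa using h6
  have h7 := hlow v
  nlinarith [mul_le_mul_of_nonneg_left h2 ha.le]

lemma geom {V : Type*} [NormedAddCommGroup V] [InnerProductSpace ℝ V] (p q z c : V) (R : ℝ)
    (h1 : ‖p - c‖ ≤ R) (h2 : ‖q - c‖ ≤ R) (hz : ‖z - c‖ = R) :
    ‖p - q‖ ^ 2 ≤ 4 * R * ‖p + q - (2 : ℝ) • z‖ := by
  have e1 : p - c = (p - z) + (z - c) := by abel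
  have e2 : q - c = (q - z) + (z - c) := by abel
  have e3 : p - q = (p - z) - (q - z) := by abel
  have e4 : p + q - (2 : ℝ) • z = (p - z) + (q - z) := by
    rw [two_smul]; abel
  rw [e1] at h1
  rw [e2] at h2
  rw [e3, e4]
  generalize p - z = u at *
  generalize q - z = v at *
  generalize z - c = w at *
  have hR : 0 ≤ R := hz ▸ norm_nonneg w
  have a1 : ‖u + w‖ ^ 2 ≤ R ^ 2 := by gcongr
  have a2 : ‖v + w‖ ^ 2 ≤ R ^ 2 := by gcongr
  rw [norm_add_sq_real, hz] at a1 a2
  have a3 : -(‖u + v‖ * R) ≤ inner ℝ (u + v) w := by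
    have := abs_real_inner_le_norm (u + v) w
    rw [hz] at this
    exact (abs_le.1 this).1
  rw [inner_add_left] at a3
  have a4 := parallelogram_law_with_norm ℝ u v
  nlinarith [sq_nonneg ‖u + v‖, norm_nonneg (u + v)]

/-- Let `0 < a` and let `F` be a law on `[a, ∞)` with finite mean `M`.  If the limit shape of
first-passage percolation with law `F` on the lattice of dimension `d ≥ 2` is uniformly
curved with radius `R`, then `a ≤ 2 √2 R M (M - a)`. -/
theorem result {d : ℕ} (hd : 2 ≤ d) {F : Measure ℝ} {a R : ℝ} (ha : 0 < a)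
    (hF : ∀ᵐ t ∂F, a ≤ t) (hint : Integrable (fun t : ℝ => t) F)
    {Ω : Type*} [MeasurableSpace Ω] {P : Measure Ω} [IsProbabilityMeasure P]
    {τ : Sym2 (Fin d → ℤ) → Ω → ℝ} (h : IsFPP P d F τ)
    {μ : Seminorm ℝ (EuclideanSpace ℝ (Fin d))} (hμ : IsTimeConstant P τ μ)
    (hR : UniformlyCurved R {x | μ x ≤ 1}) :
    a ≤ 2 * √2 * R * (∫ t, t ∂F) * ((∫ t, t ∂F) - a) := by
  set M := ∫ t, t ∂F with hM
  set i : Fin d := ⟨0, by omega⟩ with hi
  set j : Fin d := ⟨1, by omega⟩ with hj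
  have hij : i ≠ j := by simp [hi, hj]
  have hlow := mu_lower ha (tc_lower ha h hF hμ)
  have hsum1 : ∀ k : Fin d, a ≤ μ (toE (Pi.single k 1)) := by
    intro k
    have h1 := tc_lower ha h hF hμ (Pi.single k 1)
    have h2 : ∑ l, |(((Pi.single k 1 : Fin d → ℤ) l : ℤ) : ℝ)| = 1 := by
      rw [Finset.sum_eq_single k]
      · simp
      · intro l _ hl
        simp [Pi.single_eq_of_ne hl]
      · simp
    rw [h2] at h1
    linarith
  have hup : ∀ k : Fin d, μ (toE (Pi.single k 1)) ≤ M := fun k => tc_upper ha h hF hint hμ k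
  set m := μ (toE (Pi.single i 1)) with hm
  set n := μ (toE (Pi.single j 1)) with hn
  have hma : a ≤ m := hsum1 i
  have hna : a ≤ n := hsum1 j
  have hmM : m ≤ M := hup i
  have hnM : n ≤ M := hup j
  have hm0 : 0 < m := by linarith
  have hn0 : 0 < n := by linarith
  have hM0 : 0 < M := by linarith
  have hE : ∀ k : Fin d, toE (Pi.single k 1) = EuclideanSpace.single k (1 : ℝ) := by
    intro k
    ext l
    by_cases hl : l = k
    · subst hl; simp [toE]
    · simp [toE, hl]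
  set E1 : EuclideanSpace ℝ (Fin d) := toE (Pi.single i 1) with hE1
  set E2 : EuclideanSpace ℝ (Fin d) := toE (Pi.single j 1) with hE2
  set p := m⁻¹ • E1 with hp
  set q := n⁻¹ • E2 with hq
  have hμp : μ p = 1 := by
    rw [hp, map_smul_eq_mul, Real.norm_eq_abs, abs_of_pos (inv_pos.2 hm0), ← hm]
    exact inv_mul_cancel₀ hm0.ne'
  have hμq : μ q = 1 := by
    rw [hq, map_smul_eq_mul, Real.norm_eq_abs, abs_of_pos (inv_pos.2 hn0), ← hn]
    exact inv_mul_cancel₀ hn0.ne'
  set w := p + q with hw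
  set ν := μ w with hν
  have hwi : w i = m⁻¹ := by
    rw [hw, hp, hq, hE1, hE2, hE, hE]
    simp [hij, hij.symm]
  have hwj : w j = n⁻¹ := by
    rw [hw, hp, hq, hE1, hE2, hE, hE]
    simp [hij, hij.symm]
  have hνlow : a * (m⁻¹ + n⁻¹) ≤ ν := by
    refine le_trans ?_ (hlow w)
    apply mul_le_mul_of_nonneg_left _ ha.le
    have h1 : ∑ k ∈ ({i, j} : Finset (Fin d)), |w k| ≤ ∑ k, |w k| :=
      Finset.sum_le_sum_of_subset_of_nonneg (Finset.subset_univ _) (fun _ _ _ => abs_nonneg _)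
    rw [Finset.sum_pair hij, hwi, hwj, abs_of_pos (inv_pos.2 hm0), abs_of_pos (inv_pos.2 hn0)]
      at h1
    exact h1
  have hMm : M⁻¹ ≤ m⁻¹ := inv_anti₀ hm0 hmM
  have hMn : M⁻¹ ≤ n⁻¹ := inv_anti₀ hn0 hnM
  have hMi : 0 < M⁻¹ := inv_pos.2 hM0
  have hMν : 2 * a ≤ M * ν := by
    have h1 : a * (M⁻¹ + M⁻¹) ≤ ν :=
      le_trans (mul_le_mul_of_nonneg_left (add_le_add hMm hMn) ha.le) hνlow
    have h2 : M * (a * (M⁻¹ + M⁻¹)) = 2 * a := by
      field_simp
      ring
    rw [← h2]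
    exact mul_le_mul_of_nonneg_left h1 hM0.le
  have hν0 : 0 < ν := by
    have : 0 < M * ν := by linarith
    exact (mul_pos_iff_of_pos_left hM0).1 this
  set z := ν⁻¹ • w with hz
  have hμz : μ z = 1 := by
    rw [hz, map_smul_eq_mul, Real.norm_eq_abs, abs_of_pos (inv_pos.2 hν0), ← hν]
    exact inv_mul_cancel₀ hν0.ne'
  have hzf : z ∈ frontier {x | μ x ≤ 1} := by
    refine ⟨subset_closure hμz.le, fun hzi => ?_⟩
    rw [mem_interior_iff_mem_nhds] at hzi
    have hc : Tendsto (fun t : ℝ => t • z) (𝓝 1) (𝓝 z) := by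
      have : Continuous (fun t : ℝ => t • z) := by fun_prop
      simpa using this.tendsto 1
    have h1 : ∀ᶠ t in 𝓝[>] (1 : ℝ), μ (t • z) ≤ 1 :=
      nhdsWithin_le_nhds (hc.eventually hzi)
    obtain ⟨t, ht1, ht2⟩ := (h1.and self_mem_nhdsWithin).exists
    have ht3 : (1 : ℝ) < t := ht2
    rw [map_smul_eq_mul, hμz, Real.norm_eq_abs, abs_of_pos (by linarith)] at ht1
    linarith
  obtain ⟨c, hW, hzc⟩ := hR z hzf
  have h1 : ‖p - c‖ ≤ R := by
    have := hW (show p ∈ {x | μ x ≤ 1} from hμp.le)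
    rwa [Metric.mem_closedBall, dist_eq_norm] at this
  have h2 : ‖q - c‖ ≤ R := by
    have := hW (show q ∈ {x | μ x ≤ 1} from hμq.le)
    rwa [Metric.mem_closedBall, dist_eq_norm] at this
  have h3 : ‖z - c‖ = R := by
    rwa [Metric.mem_sphere, dist_eq_norm] at hzc
  have hR0 : 0 ≤ R := h3 ▸ norm_nonneg _
  have h4 := geom p q z c R h1 h2 h3
  have hpq : inner ℝ p q = 0 := by
    rw [hp, hq, inner_smul_left, inner_smul_right, hE1, hE2, hE, hE,
      EuclideanSpace.inner_single_left]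
    simp [hij, hij.symm]
  have hpn : ‖p‖ = m⁻¹ := by
    rw [hp, norm_smul, hE1, hE, Real.norm_eq_abs, abs_of_pos (inv_pos.2 hm0)]
    simp
  have hqn : ‖q‖ = n⁻¹ := by
    rw [hq, norm_smul, hE2, hE, Real.norm_eq_abs, abs_of_pos (inv_pos.2 hn0)]
    simp
  have hwn : ‖w‖ ^ 2 = m⁻¹ ^ 2 + n⁻¹ ^ 2 := by
    rw [hw, norm_add_sq_real, hpq, hpn, hqn]
    ring
  have hdn : ‖p - q‖ ^ 2 = ‖w‖ ^ 2 := by
    rw [hwn, norm_sub_sq_real, hpq, hpn, hqn]
    ring
  have hwz : ‖w - (2 : ℝ) • z‖ = (2 * ν⁻¹ - 1) * ‖w‖ := by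
    have e : w - (2 : ℝ) • z = (-(2 * ν⁻¹ - 1)) • w := by
      rw [hz, smul_smul, neg_smul, sub_smul, one_smul]
      abel
    have hν2 : ν ≤ 2 := by
      have := map_add_le_add μ p q
      rw [hμp, hμq] at this
      rw [hν, hw]
      linarith
    have h5 : 0 ≤ 2 * ν⁻¹ - 1 := by
      have : 1 ≤ 2 * ν⁻¹ := by
        rw [← div_eq_mul_inv, le_div_iff₀ hν0]
        linarith
      linarith
    rw [e, norm_smul, norm_neg, Real.norm_eq_abs, abs_of_nonneg h5]
  rw [hdn, ← hw, hwz] at h4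
  have hwsq : 2 * M⁻¹ ^ 2 ≤ ‖w‖ ^ 2 := by
    rw [hwn]
    have e1 : M⁻¹ ^ 2 ≤ m⁻¹ ^ 2 := by gcongr
    have e2 : M⁻¹ ^ 2 ≤ n⁻¹ ^ 2 := by gcongr
    linarith
  have hs2 : √2 ^ 2 = 2 := Real.sq_sqrt (by norm_num)
  have hs0 : 0 < √2 := by positivity
  have hwlow : √2 * M⁻¹ ≤ ‖w‖ := by
    apply le_of_sq_le_sq _ (norm_nonneg _)
    rw [mul_pow, hs2]
    exact hwsq
  have hwpos : 0 < ‖w‖ := lt_of_lt_of_le (by positivity) hwlow
  have h5 : ‖w‖ ≤ 4 * R * (2 * ν⁻¹ - 1) := by
    have : ‖w‖ * ‖w‖ ≤ (4 * R * (2 * ν⁻¹ - 1)) * ‖w‖ := by nlinarith [h4]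
    exact le_of_mul_le_mul_right this hwpos
  have h6 : 2 * ν⁻¹ ≤ M * a⁻¹ := by
    rw [← div_eq_mul_inv, ← div_eq_mul_inv, div_le_div_iff₀ hν0 ha]
    linarith
  have h7 : √2 * M⁻¹ ≤ 4 * R * (M * a⁻¹ - 1) := by
    refine le_trans hwlow (le_trans h5 ?_)
    apply mul_le_mul_of_nonneg_left _ (by positivity)
    linarith
  have h8 : √2 * a ≤ 4 * R * M * (M - a) := by
    have e1 : (√2 * M⁻¹) * (M * a) ≤ (4 * R * (M * a⁻¹ - 1)) * (M * a) :=
      mul_le_mul_of_nonneg_right h7 (by positivity)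
    have e2 : (√2 * M⁻¹) * (M * a) = √2 * a := by field_simp
    have e3 : (4 * R * (M * a⁻¹ - 1)) * (M * a) = 4 * R * M * (M - a) := by field_simp
    rw [e2, e3] at e1
    exact e1
  have h9 : √2 * (√2 * a) ≤ √2 * (4 * R * M * (M - a)) :=
    mul_le_mul_of_nonneg_left h8 hs0.le
  nlinarith [h9, hs2]

end Pool.Agent.Results.MP_0bd8e3_pr.NearMinimum
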